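import Pool.Agent.H255R.PL.Defs

/-!
# Linear independence of `p`-adic logarithms in modules generated by one point
-/

open Topology Polynomial

namespace Pool.Agent.H255R.PL.AbVar

variable {p : ℕ} [hp : Fact p.Prime] {n : ℕ} (A : AbVar p n)

theorem indep (P : A.Rat) {L : AddSubgroup A.Rat} {m : ℕ} (x : Fin m → L)
    (hx : LinearIndependent ℤ x) (N : Fin m → ℕ) (hN : ∀ j, N j ≠ 0) (e : Fin m → A.End)
    (he : ∀ j, N j • (x j : A.Rat) = e j • P)
    (hker : ∀ c : Fin m → ℚ_[p], (∑ j, c j • A.lieP (e j)).mulVec (A.lg P) = 0 →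
      A.lg P = 0 ∨ ∑ j, c j • A.lieP (e j) = 0) :
    LinearIndependent ℚ_[p] fun j => A.lg (x j) := by
  classical
  have hx0 := Fintype.linearIndependent_iff.1 hx
  have hlg : ∀ j, (N j : ℚ_[p]) • A.lg (x j) = (A.lieP (e j)).mulVec (A.lg P) := by
    intro j
    rw [← A.lg_smul, ← he, map_nsmul, Nat.cast_smul_eq_nsmul]
  have key : ∀ z : Fin m → ℤ, ∑ j, (z j : ℚ_[p]) • A.lieP (e j) = 0 → ∀ j, z j = 0 := by
    intro z hz
    have h1 : A.lg ((∑ j, (z j * N j) • x j : L) : A.Rat) = 0 := by
      rw [AddSubgroup.val_finsetSum, map_sum]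
      have : ∀ j, A.lg (((z j * N j) • x j : L) : A.Rat) =
          (z j : ℚ_[p]) • (A.lieP (e j)).mulVec (A.lg P) := by
        intro j
        rw [← hlg, AddSubgroup.coe_zsmul, map_zsmul, smul_smul, ← Int.cast_smul_eq_zsmul ℚ_[p]]
        push_cast
        rfl
      rw [Finset.sum_congr rfl fun j _ => this j]
      have h2 := congrArg (fun M => Matrix.mulVec M (A.lg P)) hz
      simp only [Matrix.zero_mulVec, Matrix.sum_mulVec, Matrix.smul_mulVec] at h2
      exact h2
    obtain ⟨N0, hN0, h2⟩ := A.torsion_of_lg h1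
    have h3 : ∑ j, (N0 * (z j * N j) : ℤ) • x j = 0 := by
      apply Subtype.ext
      rw [← AddSubgroup.coe_nsmul] at h2
      refine Eq.trans (congrArg Subtype.val ?_) h2
      rw [Finset.smul_sum]
      refine Finset.sum_congr rfl fun j _ => ?_
      rw [mul_smul, natCast_zsmul]
    intro j
    have h4 := hx0 _ h3 j
    simpa [hN0, hN j] using h4
  -- linear independence of the matrices
  let v : Fin m → (Fin n × Fin n) → ℚ := fun j ij => A.lie (e j) ij.1 ij.2
  have hv : LinearIndependent ℤ v := by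
    rw [Fintype.linearIndependent_iff]
    intro z hz
    refine key z ?_
    ext i k
    have h1 := congrFun hz (i, k)
    simp only [Finset.sum_apply, Pi.smul_apply, Pi.zero_apply, v] at h1
    have h2 := congrArg (algebraMap ℚ ℚ_[p]) h1
    rw [map_sum, map_zero] at h2
    rw [Matrix.sum_apply, Matrix.zero_apply, ← h2]
    refine Finset.sum_congr rfl fun j _ => ?_
    rw [Matrix.smul_apply, lieP, Matrix.map_apply, map_zsmul, smul_eq_mul, zsmul_eq_mul]
  have hv' : LinearIndependent ℚ v := (LinearIndependent.iff_fractionRing ℤ ℚ).1 hv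
  have hv'' : LinearIndependent ℚ_[p] fun j => algebraMap ℚ ℚ_[p] ∘ v j :=
    linearIndependent_algebraMap_comp_iff.2 hv'
  rw [Fintype.linearIndependent_iff]
  intro c hc j
  have h1 : (∑ j, (c j * (N j : ℚ_[p])⁻¹) • A.lieP (e j)).mulVec (A.lg P) = 0 := by
    rw [Matrix.sum_mulVec, ← hc]
    refine Finset.sum_congr rfl fun i _ => ?_
    rw [Matrix.smul_mulVec, ← hlg, mul_smul, inv_smul_smul₀ (by exact_mod_cast hN i)]
  rcases hker _ h1 with h2 | h2
  · exfalso
    have h3 : A.lg (((N j : ℤ) • x j : L) : A.Rat) = 0 := by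
      rw [AddSubgroup.coe_zsmul, natCast_zsmul, he, A.lg_smul, h2, Matrix.mulVec_zero]
    obtain ⟨N0, hN0, h4⟩ := A.torsion_of_lg h3
    have h5 : ∑ i, (if i = j then (N0 * N j : ℤ) else 0) • x i = 0 := by
      simp only [ite_smul, zero_smul, Finset.sum_ite_eq', Finset.mem_univ, if_true]
      apply Subtype.ext
      rw [← AddSubgroup.coe_nsmul] at h4
      refine Eq.trans (congrArg Subtype.val ?_) h4
      rw [mul_smul, natCast_zsmul]
    have h6 := hx0 _ h5 j
    simp only [if_true] at h6
    simp [hN0, hN j] at h6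
  · have h3 := Fintype.linearIndependent_iff.1 hv'' (fun j => c j * (N j : ℚ_[p])⁻¹) ?_ j
    · have h4 : (N j : ℚ_[p])⁻¹ ≠ 0 := inv_ne_zero (by exact_mod_cast hN j)
      exact (mul_eq_zero.1 h3).resolve_right h4
    · funext ik
      have h4 := congrFun (congrFun h2 ik.1) ik.2
      rw [Matrix.sum_apply] at h4
      simp only [Finset.sum_apply, Pi.smul_apply, Function.comp, smul_eq_mul, Pi.zero_apply]
      rw [Matrix.zero_apply] at h4
      rw [← h4]
      rfl

/-- An annihilator ideal. -/
def ann {K : Type*} [Field K] (M : Matrix (Fin n) (Fin n) K) (x : Fin n → K) : Ideal K[X] where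
  carrier := {h | (aeval M h).mulVec x = 0}
  add_mem' := by
    intro a b ha hb
    show (aeval M (a + b)).mulVec x = 0
    rw [map_add, Matrix.add_mulVec, show (aeval M a).mulVec x = 0 from ha,
      show (aeval M b).mulVec x = 0 from hb, add_zero]
  zero_mem' := by
    show (aeval M (0 : K[X])).mulVec x = 0
    rw [map_zero, Matrix.zero_mulVec]
  smul_mem' := by
    intro c a ha
    show (aeval M (c * a)).mulVec x = 0
    rw [map_mul, ← Matrix.mulVec_mulVec, show (aeval M a).mulVec x = 0 from ha,
      Matrix.mulVec_zero]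

theorem mem_ann {K : Type*} [Field K] (M : Matrix (Fin n) (Fin n) K) (x : Fin n → K) (h : K[X]) :
    h ∈ ann M x ↔ (aeval M h).mulVec x = 0 := Iff.rfl

/-- Let `x` be a vector over `K` on which no nonzero linear form with coefficients algebraic over
the subfield `k` vanishes. Then a polynomial in a matrix over `k` which kills `x` is zero. -/
theorem aeval_eq_zero {k K : Type*} [Field k] [Field K] [Algebra k K]
    (M : Matrix (Fin n) (Fin n) k) (x : Fin n → K)
    (hx : ∀ c : Fin n → K, (∀ i, IsAlgebraic k (c i)) → ∑ i, c i * x i = 0 → c = 0)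
    (h : K[X]) (hh : (aeval (M.map (algebraMap k K)) h).mulVec x = 0) :
    aeval (M.map (algebraMap k K)) h = 0 := by
  classical
  set M' := M.map (algebraMap k K) with hM'
  have hchar : (M.charpoly.map (algebraMap k K)) ∈ ann M' x := by
    rw [mem_ann, ← Matrix.charpoly_map]
    have : aeval M' (M.map (algebraMap k K)).charpoly = 0 := Matrix.aeval_self_charpoly _
    rw [this, Matrix.zero_mulVec]
  have hne : ann M' x ≠ ⊥ := by
    intro h0
    rw [h0, Ideal.mem_bot] at hchar
    exact ((Matrix.charpoly_monic M).map (algebraMap k K)).ne_zero hchar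
  set g := Submodule.IsPrincipal.generator (ann M' x) with hg
  have hg0 : g ≠ 0 := by
    intro h0
    exact hne ((Submodule.IsPrincipal.eq_bot_iff_generator_eq_zero _).2 h0)
  set ψ := normalize g with hψ
  have hψm : ψ.Monic := Polynomial.monic_normalize hg0
  have hassoc : Associated g ψ := (normalize_associated g).symm
  have hψmem : ψ ∈ ann M' x :=
    (ann M' x).mem_of_dvd hassoc.dvd (Submodule.IsPrincipal.generator_mem _)
  have hdvd : ∀ f ∈ ann M' x, ψ ∣ f := fun f hf =>
    hassoc.symm.dvd.trans ((Submodule.IsPrincipal.mem_iff_generator_dvd _).1 hf)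
  have halg : ∀ i, IsAlgebraic k (ψ.coeff i) := by
    intro i
    have h1 := integralClosure.mem_lifts_of_monic_of_dvd_map (R := k) (K := K)
      (Matrix.charpoly_monic M) hψm (hdvd _ hchar)
    rw [Polynomial.lifts_iff_coeff_lifts] at h1
    obtain ⟨a, ha⟩ := h1 i
    rw [← ha]
    exact a.2.isAlgebraic
  have hMa : ∀ (f : K[X]), (∀ i, IsAlgebraic k (f.coeff i)) → ∀ r s,
      IsAlgebraic k ((aeval M' f) r s) := by
    intro f hf r s
    rw [aeval_eq_sum_range, Matrix.sum_apply]
    refine isAlgebraic_iff_isIntegral.2 (IsIntegral.sum _ fun i _ => ?_)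
    rw [Matrix.smul_apply, smul_eq_mul]
    refine isAlgebraic_iff_isIntegral.1 ((hf i).mul ?_)
    have : M' ^ i = (M ^ i).map (algebraMap k K) := by
      rw [hM', Matrix.map_pow]
    rw [this, Matrix.map_apply]
    exact isAlgebraic_algebraMap _
  have hzero : aeval M' ψ = 0 := by
    ext r s
    have h1 := congrFun (show (aeval M' ψ).mulVec x = 0 from hψmem) r
    have h2 := hx (fun s => (aeval M' ψ) r s) (fun s => hMa ψ halg r s) h1
    exact congrFun h2 s
  obtain ⟨q, hq⟩ := hdvd h hh
  rw [hq, map_mul, hzero, zero_mul]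

end Pool.Agent.H255R.PL.AbVar
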