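import Pool.Agent.H255R.PL.Top

/-!
# Rational and `p`-adic points of an abelian variety: definitions
-/

open Topology Polynomial

namespace Pool.Agent.H255R.PL

/-- The rational points, the `p`-adic points, the logarithm and the endomorphisms of an abelian
variety `A` of dimension `n` over `ℚ`, with the standard properties. -/
structure AbVar (p : ℕ) [Fact p.Prime] (n : ℕ) where
  /-- the group `A(ℚ)` -/
  Rat : Type
  [ratGroup : AddCommGroup Rat]
  /-- the compact topological group `A(ℚ_p)` -/
  Loc : Type
  [locGroup : AddCommGroup Loc]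
  [locTop : TopologicalSpace Loc]
  [locTopGroup : IsTopologicalAddGroup Loc]
  [locCompact : CompactSpace Loc]
  [locT2 : T2Space Loc]
  /-- the inclusion of `A(ℚ)` in `A(ℚ_p)` -/
  incl : Rat →+ Loc
  incl_injective : Function.Injective incl
  /-- the logarithm `A(ℚ_p) → Lie(A) ⊗ ℚ_p = ℚ_p ^ n`, in a `ℚ`-basis of `Lie(A)` -/
  log : Loc →+ (Fin n → ℚ_[p])
  log_continuous : Continuous log
  /-- the logarithm is an isomorphism of an open subgroup of `A(ℚ_p)` onto an open subgroup of
  `ℚ_p ^ n` -/
  log_local : ∃ U : AddSubgroup Loc, IsOpen (U : Set Loc) ∧ Set.InjOn log U ∧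
    IsOpen (log '' (U : Set Loc))
  /-- the ring of the endomorphisms of `A` defined over `ℚ` -/
  End : Type
  [endRing : Ring End]
  [endModule : Module End Rat]
  /-- the action of the endomorphisms on `Lie(A) = ℚ ^ n` -/
  lie : End →+* Matrix (Fin n) (Fin n) ℚ
  log_smul : ∀ (e : End) (x : Rat),
    log (incl (e • x)) = ((lie e).map (algebraMap ℚ ℚ_[p])).mulVec (log (incl x))

attribute [instance] AbVar.ratGroup AbVar.locGroup AbVar.locTop AbVar.locTopGroup
  AbVar.locCompact AbVar.locT2 AbVar.endRing AbVar.endModule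

namespace AbVar

variable {p : ℕ} [hp : Fact p.Prime] {n : ℕ} (A : AbVar p n)

/-- The closure in `A(ℚ_p)` of the subgroup `L` of `A(ℚ)`. -/
def closure (L : AddSubgroup A.Rat) : AddSubgroup A.Loc := (L.map A.incl).topologicalClosure

/-- The logarithm on the rational points. -/
noncomputable def lg : A.Rat →+ (Fin n → ℚ_[p]) := A.log.comp A.incl

/-- The action of an endomorphism on `Lie(A) ⊗ ℚ_p`. -/
noncomputable def lieP (e : A.End) : Matrix (Fin n) (Fin n) ℚ_[p] := (A.lie e).map (algebraMap ℚ ℚ_[p])

theorem lg_smul (e : A.End) (x : A.Rat) : A.lg (e • x) = (A.lieP e).mulVec (A.lg x) :=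
  A.log_smul e x

/-- The kernel of the logarithm is torsion. -/
theorem torsion_of_lg {x : A.Rat} (hx : A.lg x = 0) : ∃ N : ℕ, N ≠ 0 ∧ N • x = 0 := by
  obtain ⟨U, hU, hinj, -⟩ := A.log_local
  have : Finite (A.Loc ⧸ U) := AddSubgroup.quotient_finite_of_isOpen U hU
  have : U.FiniteIndex := AddSubgroup.finiteIndex_of_finite_quotient
  refine ⟨U.index, AddSubgroup.FiniteIndex.index_ne_zero, ?_⟩
  have h1 : U.index • A.incl x ∈ U := AddSubgroup.nsmul_index_mem U _
  have h2 : U.index • A.incl x = 0 := by
    refine hinj h1 U.zero_mem ?_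
    rw [map_nsmul, map_zero]
    show U.index • A.lg x = 0
    rw [hx, smul_zero]
  apply A.incl_injective
  rw [map_nsmul, h2, map_zero]

/-- If the logarithms of linearly independent elements of `L` are linearly independent over `ℚ_p`,
then the `ℤ_p`-rank of the closure of `L` is the rank of `L`. -/
theorem hasZpRank_of (L : AddSubgroup A.Rat) (hL : L.FG)
    (h : ∀ (m : ℕ) (x : Fin m → L), LinearIndependent ℤ x →
      LinearIndependent ℚ_[p] fun j => A.lg (x j)) :
    HasZpRank p (A.closure L) (Module.finrank ℤ L) := by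
  classical
  obtain ⟨U, hU, hinj, -⟩ := A.log_local
  have h1 := hasZpRank_closed A.log A.log_continuous U hU hinj (A.closure L)
    (AddSubgroup.isClosed_topologicalClosure _)
  have : Module.Finite ℤ L := by
    rw [Module.Finite.iff_addGroup_fg]
    exact (AddGroup.fg_iff_addSubgroup_fg L).2 hL
  obtain ⟨x, hx⟩ := exists_linearIndependent_of_le_finrank (R := ℤ) (M := L) le_rfl
  have hx' := h _ x hx
  set W := Submodule.span ℚ_[p] (Set.range fun j => A.lg (x j)) with hW
  have hmem : ∀ y : L, A.lg y ∈ W := by
    intro y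
    by_contra hy
    have hcons : LinearIndependent ℤ (Fin.cons y x : Fin (Module.finrank ℤ L + 1) → L) := by
      refine hx.finCons' y x ?_
      intro c z hz h0
      by_contra hc
      apply hy
      have h3 : A.lg (((c • y + z : L) : L) : A.Rat) = 0 := by rw [h0]; simp
      have h4 : A.lg (z : L) ∈ W := by
        obtain ⟨a, ha⟩ := (Submodule.mem_span_range_iff_exists_fun ℤ).1 hz
        rw [← ha]
        have : A.lg ((∑ i, a i • x i : L) : A.Rat) = ∑ i, (a i : ℚ_[p]) • A.lg (x i) := by
          rw [AddSubgroup.val_finsetSum, map_sum]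
          refine Finset.sum_congr rfl fun i _ => ?_
          rw [AddSubgroup.coe_zsmul, map_zsmul, Int.cast_smul_eq_zsmul]
        rw [this]
        exact Submodule.sum_mem _ fun i _ =>
          Submodule.smul_mem _ _ (Submodule.subset_span ⟨i, rfl⟩)
      have h5 : (c : ℚ_[p]) • A.lg y = - A.lg (z : L) := by
        rw [Int.cast_smul_eq_zsmul, eq_neg_iff_add_eq_zero, ← map_zsmul, ← map_add]
        simpa using h3
      have h6 : A.lg y = (c : ℚ_[p])⁻¹ • (-A.lg (z : L)) := by
        rw [← h5, inv_smul_smul₀ (by exact_mod_cast hc)]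
      rw [h6]
      exact Submodule.smul_mem _ _ (Submodule.neg_mem _ h4)
    have := hcons.fintype_card_le_finrank
    simp at this
  have hfd : FiniteDimensional ℚ_[p] W := inferInstance
  have hclosedW : IsClosed (W : Set (Fin n → ℚ_[p])) := Submodule.closed_of_finiteDimensional W
  have hspan : Submodule.span ℚ_[p] (A.log '' (A.closure L : Set A.Loc)) = W := by
    apply le_antisymm
    · rw [Submodule.span_le]
      have hsub : (A.closure L : Set A.Loc) ⊆ A.log ⁻¹' (W : Set (Fin n → ℚ_[p])) := by
        rw [closure, AddSubgroup.topologicalClosure_coe]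
        refine closure_minimal ?_ (hclosedW.preimage A.log_continuous)
        rintro _ ⟨y, hy, rfl⟩
        exact hmem ⟨y, hy⟩
      rintro _ ⟨z, hz, rfl⟩
      exact hsub hz
    · rw [hW, Submodule.span_le]
      rintro _ ⟨j, rfl⟩
      refine Submodule.subset_span ⟨A.incl (x j), ?_, rfl⟩
      exact AddSubgroup.le_topologicalClosure _ ⟨_, (x j).2, rfl⟩
  rw [hspan, hW, finrank_span_eq_card hx', Fintype.card_fin] at h1
  exact h1

end AbVar

end Pool.Agent.H255R.PL
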