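import Mathlib

/-!
# Closed subgroups of compact `p`-adic groups
-/

open Topology

namespace Pool.Agent.H255R.PL

/-- The topological abelian group `H` has `ℤ_p`-rank `d`: it has an open subgroup of finite index
which is isomorphic to `ℤ_p ^ d`, as a topological group. -/
def HasZpRank (p : ℕ) [Fact p.Prime] (H : Type*) [AddCommGroup H] [TopologicalSpace H]
    (d : ℕ) : Prop :=
  ∃ H₀ : AddSubgroup H, IsOpen (H₀ : Set H) ∧ H₀.FiniteIndex ∧
    Nonempty ((Fin d → ℤ_[p]) ≃ₜ+ H₀)

variable {p : ℕ} [hp : Fact p.Prime] {n : ℕ}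

theorem smul_eq (a : ℤ_[p]) (t : Fin n → ℚ_[p]) : a • t = fun i => (a : ℚ_[p]) * t i := by
  funext i; simp [Algebra.smul_def]

theorem continuous_smul_const' (t : Fin n → ℚ_[p]) : Continuous fun a : ℤ_[p] => a • t := by
  simp only [smul_eq]
  exact continuous_pi fun i => (continuous_subtype_val (p := fun x : ℚ_[p] => ‖x‖ ≤ 1)).mul
    continuous_const

/-- a closed additive subgroup of `ℚ_p ^ n` is a `ℤ_p`-module -/
def toSubmodule (T : AddSubgroup (Fin n → ℚ_[p])) (hT : IsClosed (T : Set (Fin n → ℚ_[p]))) :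
    Submodule ℤ_[p] (Fin n → ℚ_[p]) where
  carrier := T
  add_mem' := fun ha hb => T.add_mem ha hb
  zero_mem' := T.zero_mem
  smul_mem' := by
    intro a t ht
    have hc : IsClosed {a : ℤ_[p] | a • t ∈ (T : Set (Fin n → ℚ_[p]))} :=
      hT.preimage (continuous_smul_const' t)
    have hd : ∀ z : ℤ, (z : ℤ_[p]) ∈ {a : ℤ_[p] | a • t ∈ (T : Set (Fin n → ℚ_[p]))} := by
      intro z
      show ((z : ℤ_[p]) • t) ∈ (T : Set (Fin n → ℚ_[p]))
      rw [Int.cast_smul_eq_zsmul]
      exact T.zsmul_mem ht z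
    have hdense : DenseRange (Int.cast : ℤ → ℤ_[p]) := PadicInt.denseRange_intCast
    have : closure (Set.range (Int.cast : ℤ → ℤ_[p])) ⊆
        {a : ℤ_[p] | a • t ∈ (T : Set (Fin n → ℚ_[p]))} :=
      hc.closure_subset_iff.2 (by rintro _ ⟨z, rfl⟩; exact hd z)
    have h2 : a ∈ closure (Set.range (Int.cast : ℤ → ℤ_[p])) := by
      rw [hdense.closure_range]; trivial
    exact this h2

theorem mem_toSubmodule (T : AddSubgroup (Fin n → ℚ_[p]))
    (hT : IsClosed (T : Set (Fin n → ℚ_[p]))) (t : Fin n → ℚ_[p]) :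
    t ∈ toSubmodule T hT ↔ t ∈ T := Iff.rfl

theorem noeth (T : AddSubgroup (Fin n → ℚ_[p])) (hT : IsCompact (T : Set (Fin n → ℚ_[p]))) :
    IsNoetherian ℤ_[p] (toSubmodule T hT.isClosed) := by
  obtain ⟨C, hC⟩ := hT.isBounded.exists_norm_le
  obtain ⟨k, hk⟩ : ∃ k : ℕ, C ≤ (p : ℝ) ^ k := by
    obtain ⟨k, hk⟩ := pow_unbounded_of_one_lt C (show (1 : ℝ) < p by exact_mod_cast hp.out.one_lt)
    exact ⟨k, hk.le⟩
  have hp0 : (p : ℚ_[p]) ≠ 0 := by exact_mod_cast hp.out.ne_zero
  let f : (Fin n → ℤ_[p]) →ₗ[ℤ_[p]] (Fin n → ℚ_[p]) :=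
    { toFun := fun a i => ((p : ℚ_[p]) ^ k)⁻¹ * (a i : ℚ_[p])
      map_add' := fun a b => by
        funext i
        simp [mul_add]
      map_smul' := fun c a => by
        funext i
        simp [Algebra.smul_def, mul_left_comm] }
  have hle : toSubmodule T hT.isClosed ≤ LinearMap.range f := by
    intro t ht
    have hn : ∀ i, ‖(p : ℚ_[p]) ^ k * t i‖ ≤ 1 := by
      intro i
      have h1 : ‖t i‖ ≤ (p : ℝ) ^ k := ((norm_le_pi_norm t i).trans (hC t ht)).trans hk
      rw [norm_mul, norm_pow, Padic.norm_p, inv_pow]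
      have hpos : (0 : ℝ) < (p : ℝ) ^ k := pow_pos (by exact_mod_cast hp.out.pos) k
      rw [inv_mul_le_iff₀ hpos, mul_one]
      exact h1
    refine ⟨fun i => ⟨(p : ℚ_[p]) ^ k * t i, hn i⟩, ?_⟩
    funext i
    show ((p : ℚ_[p]) ^ k)⁻¹ * ((p : ℚ_[p]) ^ k * t i) = t i
    rw [inv_mul_cancel_left₀ (pow_ne_zero k hp0)]
  exact isNoetherian_of_le hle

/-- A compact subgroup of `ℚ_p ^ n` is isomorphic to `ℤ_p ^ d`, where `d` is the dimension of its
span. -/
theorem equiv_of_compact (T : AddSubgroup (Fin n → ℚ_[p]))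
    (hT : IsCompact (T : Set (Fin n → ℚ_[p]))) :
    Nonempty ((Fin (Module.finrank ℚ_[p] (Submodule.span ℚ_[p] (T : Set (Fin n → ℚ_[p])))) →
      ℤ_[p]) ≃ₜ+ T) := by
  classical
  set S := toSubmodule T hT.isClosed with hS
  have := noeth T hT
  have : Module.Finite ℤ_[p] S := inferInstance
  have : Module.IsTorsionFree ℤ_[p] S := inferInstance
  have : Module.Free ℤ_[p] S := inferInstance
  let b := Module.finBasis ℤ_[p] S
  have hli : LinearIndependent ℤ_[p] (fun i => (b i : Fin n → ℚ_[p])) :=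
    b.linearIndependent.map' S.subtype (Submodule.ker_subtype S)
  have hli' : LinearIndependent ℚ_[p] (fun i => (b i : Fin n → ℚ_[p])) :=
    (LinearIndependent.iff_fractionRing ℤ_[p] ℚ_[p]).1 hli
  have hspan : Submodule.span ℚ_[p] (T : Set (Fin n → ℚ_[p])) =
      Submodule.span ℚ_[p] (Set.range fun i => (b i : Fin n → ℚ_[p])) := by
    apply le_antisymm
    · rw [Submodule.span_le]
      intro t ht
      have h0 := b.sum_repr ⟨t, ht⟩
      have h2 : t = ∑ i, b.repr ⟨t, ht⟩ i • (b i : Fin n → ℚ_[p]) := by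
        have h3 := congrArg (S.subtype) h0
        rw [map_sum] at h3
        exact h3.symm
      rw [SetLike.mem_coe, h2]
      refine Submodule.sum_mem _ fun i _ => ?_
      have : (b.repr ⟨t, ht⟩ i) • (b i : Fin n → ℚ_[p]) =
          ((b.repr ⟨t, ht⟩ i : ℤ_[p]) : ℚ_[p]) • (b i : Fin n → ℚ_[p]) := by
        funext j; simp [Algebra.smul_def]
      rw [this]
      exact Submodule.smul_mem _ _ (Submodule.subset_span ⟨i, rfl⟩)
    · rw [Submodule.span_le]
      rintro _ ⟨i, rfl⟩
      exact Submodule.subset_span (b i).2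
  have hd : Module.finrank ℚ_[p] (Submodule.span ℚ_[p] (T : Set (Fin n → ℚ_[p]))) =
      Module.finrank ℤ_[p] S := by
    rw [hspan, finrank_span_eq_card hli', Fintype.card_fin]
  rw [hd]
  let e : (Fin (Module.finrank ℤ_[p] S) → ℤ_[p]) ≃+ T := b.equivFun.symm.toAddEquiv
  have he : Continuous e := by
    have h1 : Continuous fun x : Fin (Module.finrank ℤ_[p] S) → ℤ_[p] =>
        ∑ i, x i • (b i : Fin n → ℚ_[p]) :=
      continuous_finsetSum _ fun i _ => (continuous_smul_const' _).comp (continuous_apply i)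
    refine Continuous.subtype_mk h1 ?_ |>.congr ?_
    · intro x
      exact Submodule.sum_mem S fun i _ => S.smul_mem _ (b i).2
    · intro x
      apply Subtype.ext
      show _ = ((b.equivFun.symm x : S) : Fin n → ℚ_[p])
      rw [Module.Basis.equivFun_symm_apply]
      simp
  have : CompactSpace T := isCompact_iff_compactSpace.1 hT
  exact ⟨{ e with
    continuous_toFun := he
    continuous_invFun := (he.homeoOfEquivCompactToT2 (f := e.toEquiv)).continuous_invFun }⟩

/-- Let `log` be a continuous homomorphism from the compact group `G` to `ℚ_p ^ n`, injective on an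
open subgroup. Then the `ℤ_p`-rank of the closed subgroup `H` of `G` is the dimension of the span
of `log H`. -/
theorem hasZpRank_closed {G : Type*} [AddCommGroup G] [TopologicalSpace G]
    [IsTopologicalAddGroup G] [CompactSpace G] [T2Space G]
    (log : G →+ (Fin n → ℚ_[p])) (hlog : Continuous log) (U : AddSubgroup G)
    (hU : IsOpen (U : Set G)) (hinj : Set.InjOn log U) (H : AddSubgroup G)
    (hH : IsClosed (H : Set G)) :
    HasZpRank p H (Module.finrank ℚ_[p]
      (Submodule.span ℚ_[p] (log '' (H : Set G)))) := by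
  classical
  set H₀ : AddSubgroup H := U.addSubgroupOf H with hH₀
  have hopen : IsOpen (H₀ : Set H) := hU.preimage continuous_subtype_val
  have : CompactSpace H := isCompact_iff_compactSpace.1 hH.isCompact
  have hfin : Finite (H ⧸ H₀) := AddSubgroup.quotient_finite_of_isOpen H₀ hopen
  have : H₀.FiniteIndex := AddSubgroup.finiteIndex_of_finite_quotient
  have hclosed : IsClosed (H₀ : Set H) := AddSubgroup.isClosed_of_isOpen H₀ hopen
  have : CompactSpace H₀ := isCompact_iff_compactSpace.1 hclosed.isCompact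
  let g : H₀ →+ (Fin n → ℚ_[p]) := (log.comp H.subtype).comp H₀.subtype
  have hg : Continuous g := hlog.comp (continuous_subtype_val.comp continuous_subtype_val)
  have hginj : Function.Injective g := by
    intro x y hxy
    apply Subtype.ext
    apply Subtype.ext
    exact hinj (AddSubgroup.mem_addSubgroupOf.1 x.2) (AddSubgroup.mem_addSubgroupOf.1 y.2) hxy
  have hT : IsCompact (g.range : Set (Fin n → ℚ_[p])) := by
    rw [AddMonoidHom.coe_range]
    exact isCompact_range hg
  have hspan : Submodule.span ℚ_[p] (log '' (H : Set G)) =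
      Submodule.span ℚ_[p] (g.range : Set (Fin n → ℚ_[p])) := by
    apply le_antisymm
    · rw [Submodule.span_le]
      rintro _ ⟨h, hh, rfl⟩
      obtain ⟨N, hN0, hN⟩ : ∃ N : ℕ, N ≠ 0 ∧ N • (⟨h, hh⟩ : H) ∈ H₀ :=
        ⟨H₀.index, AddSubgroup.FiniteIndex.index_ne_zero,
          AddSubgroup.nsmul_index_mem H₀ _⟩
      have h1 : (N : ℚ_[p]) • log h ∈ Submodule.span ℚ_[p] (g.range : Set (Fin n → ℚ_[p])) := by
        apply Submodule.subset_span
        refine ⟨⟨N • (⟨h, hh⟩ : H), hN⟩, ?_⟩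
        show log (((N • (⟨h, hh⟩ : H)) : H) : G) = _
        rw [AddSubgroup.coe_nsmul, map_nsmul, Nat.cast_smul_eq_nsmul]
      have h2 : log h = (N : ℚ_[p])⁻¹ • ((N : ℚ_[p]) • log h) := by
        rw [inv_smul_smul₀ (by exact_mod_cast hN0)]
      rw [SetLike.mem_coe, h2]
      exact Submodule.smul_mem _ _ h1
    · refine Submodule.span_mono ?_
      rintro _ ⟨x, rfl⟩
      exact ⟨_, x.1.2, rfl⟩
  rw [hspan]
  obtain ⟨e⟩ := equiv_of_compact g.range hT
  let e' : H₀ ≃+ g.range := AddMonoidHom.ofInjective hginj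
  have he' : Continuous e' := Continuous.subtype_mk hg _
  have e'' : H₀ ≃ₜ+ g.range :=
    { e' with
      continuous_toFun := he'
      continuous_invFun := (he'.homeoOfEquivCompactToT2 (f := e'.toEquiv)).continuous_invFun }
  exact ⟨H₀, hopen, inferInstance, ⟨e.trans e''.symm⟩⟩

end Pool.Agent.H255R.PL
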